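import Pool.Agent.ZPK.StmtsD
import Pool.Agent.Helper17_ZP3.DN3

/-!
Squad ZPK (MP_6e1a06_nt), row DNK: density with exceptional residues modulo `p ^ 2`.
-/

set_option autoImplicit false

namespace Pool.Agent.ZPK.H25

open Pool.Agent.ZPT Pool.Agent.ZP3

/-- the number of points of the box with residues in a given set -/
theorem card_res2 (n m P H : ℕ) (hP : 0 < P) (hPH : P ≤ H) (A : Finset (Fin n → Fin m → ℤ))
    (hA : ∀ a ∈ A, ∀ i r, |a i r| ≤ H) (R : Finset (Fin n → Fin m → ℤ))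
    (hR : ∀ a ∈ A, (fun i r => a i r % (P : ℤ)) ∈ R) :
    (A.card : ℝ) ≤ R.card * (4 * ((H : ℝ) / P)) ^ (n * m) := by
  classical
  have hpz : (0 : ℤ) < P := by exact_mod_cast hP
  set q : ℕ := H / P with hq
  have hq1 : 1 ≤ q := (Nat.one_le_div_iff hP).mpr hPH
  have hqe : (q : ℤ) = (H : ℤ) / (P : ℤ) := by rw [hq]; exact Int.natCast_div H P
  have h := Finset.card_le_card_of_injOn (s := A)
    (t := R ×ˢ (Fintype.piFinset fun _ : Fin n => Fintype.piFinset fun _ : Fin m =>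
      Finset.Icc (-(q : ℤ) - 1) (q : ℤ)))
    (fun a => ((fun i r => a i r % (P : ℤ)), fun i r => a i r / (P : ℤ))) ?_ ?_
  · rw [Finset.card_product, Fintype.card_piFinset] at h
    simp only [Fintype.card_piFinset, Finset.prod_const, Finset.card_univ, Fintype.card_fin,
      Int.card_Icc] at h
    have h1 : ((q : ℤ) + 1 - (-(q : ℤ) - 1)).toNat = 2 * q + 2 := by omega
    rw [h1] at h
    have h2 : (A.card : ℝ) ≤ R.card * ((2 * (q : ℝ) + 2) ^ m) ^ n := by exact_mod_cast h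
    refine h2.trans (mul_le_mul_of_nonneg_left ?_ (Nat.cast_nonneg _))
    rw [← pow_mul, mul_comm m n]
    apply pow_le_pow_left₀ (by positivity)
    have h3 : (q : ℝ) ≤ (H : ℝ) / P := by rw [hq]; exact Nat.cast_div_le
    have h4 : (1 : ℝ) ≤ (q : ℝ) := by exact_mod_cast hq1
    linarith
  · intro a ha
    have h1 := hA a ha
    rw [Finset.mem_coe, Finset.mem_product, Fintype.mem_piFinset]
    refine ⟨hR a ha, fun i => ?_⟩
    rw [Fintype.mem_piFinset]
    intro r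
    show a i r / (P : ℤ) ∈ Finset.Icc (-(q : ℤ) - 1) (q : ℤ)
    have h3 := abs_le.mp (h1 i r)
    rw [Finset.mem_Icc]
    constructor
    · have h4 : (H : ℤ) < (P : ℤ) * (q + 1) := by
        rw [hqe, mul_comm]
        exact Int.lt_ediv_add_one_mul_self _ hpz
      have h5 : (-(q : ℤ) - 1) * P ≤ a i r := by nlinarith
      exact Int.le_ediv_of_mul_le hpz h5
    · rw [hqe]
      exact Int.ediv_le_ediv hpz h3.2
  · intro a _ b _ he
    funext i r
    have h1 : a i r % (P : ℤ) = b i r % (P : ℤ) :=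
      congrFun (congrFun (congrArg Prod.fst he) i) r
    have h2 : a i r / (P : ℤ) = b i r / (P : ℤ) :=
      congrFun (congrFun (congrArg Prod.snd he) i) r
    rw [← Int.mul_ediv_add_emod (a i r) P, ← Int.mul_ediv_add_emod (b i r) P, h1, h2]

theorem finite_Rs (p n m : ℕ) (E : Set (Fin n → Fin m → ℤ)) : (Rs p E).Finite := by
  refine Set.Finite.subset (Finset.finite_toSet (Fintype.piFinset fun _ : Fin n =>
    Fintype.piFinset fun _ : Fin m => Finset.Ico (0 : ℤ) ((p : ℤ) ^ 2))) ?_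
  intro x hx
  rw [Finset.mem_coe, Fintype.mem_piFinset]
  intro i
  rw [Fintype.mem_piFinset]
  intro r
  rw [Finset.mem_Ico]
  exact hx.1 i r

/-- a finite set of large primes of `PP` with large sum of inverses -/
theorem exists_T (PP : Set ℕ) (hPP : ∀ p ∈ PP, p.Prime)
    (hns : ¬ Summable (fun p : {p : ℕ // p ∈ PP} => ((p : ℕ) : ℝ)⁻¹)) (p₁ : ℕ) (c : ℝ) :
    ∃ T : Finset ℕ, (∀ p ∈ T, p ∈ PP ∧ p₁ ≤ p) ∧ c ≤ ∑ p ∈ T, ((p : ℕ) : ℝ)⁻¹ := by
  classical
  by_contra hcon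
  push Not at hcon
  apply hns
  refine summable_of_sum_le (c := c + p₁) (fun p => by positivity) ?_
  intro u
  have h1 : ∑ x ∈ u, ((x : ℕ) : ℝ)⁻¹ = ∑ p ∈ u.image Subtype.val, ((p : ℕ) : ℝ)⁻¹ := by
    rw [Finset.sum_image]
    intro x _ y _ h
    exact Subtype.ext h
  rw [h1, ← Finset.sum_filter_add_sum_filter_not (u.image Subtype.val) (fun p => p₁ ≤ p)]
  have hmem : ∀ p ∈ u.image Subtype.val, p ∈ PP := by
    intro p hp
    obtain ⟨x, _, rfl⟩ := Finset.mem_image.mp hp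
    exact x.2
  refine add_le_add (hcon _ fun p hp => ?_).le ?_
  · rw [Finset.mem_filter] at hp
    exact ⟨hmem p hp.1, hp.2⟩
  · calc ∑ p ∈ (u.image Subtype.val).filter (fun p => ¬ p₁ ≤ p), ((p : ℕ) : ℝ)⁻¹
        ≤ ∑ p ∈ (u.image Subtype.val).filter (fun p => ¬ p₁ ≤ p), (1 : ℝ) := by
          refine Finset.sum_le_sum fun p hp => ?_
          rw [Finset.mem_filter] at hp
          have h2 : (1 : ℝ) ≤ p := by exact_mod_cast (hPP p (hmem p hp.1)).one_lt.le
          exact inv_le_one_of_one_le₀ h2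
      _ ≤ ∑ p ∈ Finset.range p₁, (1 : ℝ) := by
          refine Finset.sum_le_sum_of_subset_of_nonneg ?_ fun _ _ _ => zero_le_one
          intro p hp
          rw [Finset.mem_filter] at hp
          rw [Finset.mem_range]
          omega
      _ = p₁ := by simp

/-- the numbers without a divisor in `T` -/
theorem card_cop (T : Finset ℕ) (hT : ∀ p ∈ T, p.Prime) (c δ : ℝ) (hδ : 0 < δ)
    (hc : c ≤ ∑ p ∈ T, ((p : ℕ) : ℝ)⁻¹) (hcδ : Real.exp (-c) ≤ δ / 2) :
    ∃ H₀ : ℕ, ∀ H : ℕ, H₀ ≤ H →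
      (((Finset.Icc (1 : ℤ) H).filter fun N => ∀ p ∈ T, ¬ (p : ℤ) ∣ N).card : ℝ) ≤ δ * H := by
  classical
  set Q : ℕ := ∏ p ∈ T, p with hQ
  have hQ0 : 0 < Q := Finset.prod_pos fun p hp => (hT p hp).pos
  have hQr : (0 : ℝ) < Q := by exact_mod_cast hQ0
  -- the totient
  have htot : ((Nat.totient Q : ℕ) : ℝ) ≤ Q * (δ / 2) := by
    have h1 : ((Nat.totient Q : ℕ) : ℝ) = Q * ∏ p ∈ T, (1 - ((p : ℕ) : ℝ)⁻¹) := by
      have h2 := Nat.totient_eq_mul_prod_factors Q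
      rw [hQ, Nat.primeFactors_prod hT] at h2
      have h3 := congrArg (fun x : ℚ => (x : ℝ)) h2
      push_cast at h3
      rw [hQ]
      push_cast
      exact h3
    rw [h1]
    refine mul_le_mul_of_nonneg_left ?_ hQr.le
    refine le_trans ?_ hcδ
    calc ∏ p ∈ T, (1 - ((p : ℕ) : ℝ)⁻¹) ≤ ∏ p ∈ T, Real.exp (-((p : ℕ) : ℝ)⁻¹) := by
          refine Finset.prod_le_prod (fun p hp => ?_) fun p _ => ?_
          · have h2 : (1 : ℝ) ≤ p := by exact_mod_cast (hT p hp).one_lt.le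
            have := inv_le_one_of_one_le₀ h2
            linarith
          · have := Real.add_one_le_exp (-((p : ℕ) : ℝ)⁻¹)
            linarith
      _ = Real.exp (-∑ p ∈ T, ((p : ℕ) : ℝ)⁻¹) := by
          rw [← Real.exp_sum, Finset.sum_neg_distrib]
      _ ≤ Real.exp (-c) := Real.exp_le_exp.mpr (by linarith)
  obtain ⟨H₀, hH₀⟩ := exists_nat_ge (2 * (Q : ℝ) / δ)
  refine ⟨H₀, fun H hH => ?_⟩
  have hHr : 2 * (Q : ℝ) / δ ≤ H := hH₀.trans (by exact_mod_cast hH)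
  have h := Finset.card_le_card_of_injOn
    (s := (Finset.Icc (1 : ℤ) H).filter fun N => ∀ p ∈ T, ¬ (p : ℤ) ∣ N)
    (t := (Finset.Ico 1 (1 + H)).filter fun x => Q.Coprime x) (fun N => N.toNat) ?_ ?_
  · have h2 := h.trans (Nat.Ico_filter_coprime_le 1 H hQ0.ne')
    have h3 : (((Finset.Icc (1 : ℤ) H).filter fun N => ∀ p ∈ T, ¬ (p : ℤ) ∣ N).card : ℝ) ≤
        (Nat.totient Q : ℝ) * (((H / Q : ℕ) : ℝ) + 1) := by exact_mod_cast h2
    refine h3.trans ?_
    have h4 : ((H / Q : ℕ) : ℝ) ≤ (H : ℝ) / Q := Nat.cast_div_le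
    have h5 : (Q : ℝ) ≤ δ / 2 * H := by
      rw [div_le_iff₀ hδ] at hHr
      linarith
    have h6 : ((Nat.totient Q : ℕ) : ℝ) ≤ Q := by exact_mod_cast Nat.totient_le Q
    calc (Nat.totient Q : ℝ) * (((H / Q : ℕ) : ℝ) + 1)
        = (Nat.totient Q : ℝ) * ((H / Q : ℕ) : ℝ) + Nat.totient Q := by ring
      _ ≤ (Q * (δ / 2)) * ((H : ℝ) / Q) + Q := by
          refine add_le_add (mul_le_mul htot h4 (Nat.cast_nonneg _) (by positivity)) h6
      _ = δ / 2 * H + Q := by field_simp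
      _ ≤ δ * H := by linarith
  · intro N hN
    rw [Finset.mem_coe, Finset.mem_filter, Finset.mem_Icc] at hN
    rw [Finset.mem_coe, Finset.mem_filter, Finset.mem_Ico]
    show (1 ≤ N.toNat ∧ N.toNat < 1 + H) ∧ Nat.Coprime Q N.toNat
    refine ⟨by omega, ?_⟩
    rw [hQ]
    refine Nat.Coprime.prod_left fun p hp => ?_
    rw [Nat.Prime.coprime_iff_not_dvd (hT p hp)]
    intro hd
    apply hN.2 p hp
    have h1 : ((N.toNat : ℕ) : ℤ) = N := Int.toNat_of_nonneg (by omega)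
    rw [← h1]
    exact_mod_cast hd
  · intro N hN N' hN' he
    rw [Finset.mem_coe, Finset.mem_filter, Finset.mem_Icc] at hN hN'
    have he' : N.toNat = N'.toNat := he
    omega

open Classical in
theorem dnk : DnkStmt := by
  intro n m p₀ C ε hε PP hPP hns B hB
  set C' : ℝ := max C 0 with hC'
  have hC0 : 0 ≤ C' := le_max_right _ _
  have hCC : C ≤ C' := le_max_left _ _
  set K : ℝ := 3 ^ (n * m) + 4 ^ (n * m) * C' with hK
  have hK0 : 0 ≤ K := by positivity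
  -- the threshold
  obtain ⟨p₁, hp₁⟩ := exists_nat_ge (max (p₀ : ℝ) (4 * K / ε))
  have hp₁0 : p₀ ≤ p₁ := by exact_mod_cast (le_max_left _ _).trans hp₁
  have hp₁K : 4 * K / ε ≤ p₁ := (le_max_right _ _).trans hp₁
  have hp₁K' : K * (2 / ((p₁ : ℝ) + 1)) ≤ ε / 2 := by
    rw [div_le_iff₀ hε] at hp₁K
    rw [mul_div_assoc', div_le_iff₀ (by positivity)]
    nlinarith
  -- the finite set of primes
  set δ : ℝ := ε / (2 * 3 ^ (n * m)) with hδ
  have hδ0 : 0 < δ := by positivity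
  obtain ⟨T, hT1, hT2⟩ := exists_T PP hPP hns (p₁ + 1) (-Real.log (δ / 2))
  have hTp : ∀ p ∈ T, p.Prime := fun p hp => hPP p (hT1 p hp).1
  obtain ⟨H₁, hH₁⟩ := card_cop T hTp _ δ hδ0 hT2
    (by rw [neg_neg, Real.exp_log (by positivity)])
  refine ⟨max H₁ (max 1 (∑ p ∈ T, p ^ 2)), fun H hH A hA => ?_⟩
  have hHH : H₁ ≤ H := (le_max_left _ _).trans hH
  have hH1 : 1 ≤ H := ((le_max_left _ _).trans (le_max_right _ _)).trans hH
  have hHT : ∀ p ∈ T, p ^ 2 ≤ H := by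
    intro p hp
    have h1 : p ^ 2 ≤ ∑ p ∈ T, p ^ 2 :=
      Finset.single_le_sum (f := fun p => p ^ 2) (fun _ _ => Nat.zero_le _) hp
    exact h1.trans (((le_max_right _ _).trans (le_max_right _ _)).trans hH)
  have hHr : (1 : ℝ) ≤ H := by exact_mod_cast hH1
  have hN1c := hH₁ H hHH
  -- the cube
  set X : Finset (Fin n → Fin m → ℤ) := Fintype.piFinset fun _ : Fin n =>
    Fintype.piFinset fun _ : Fin m => Finset.Icc (-(H : ℤ)) H with hX
  have hXm : ∀ a : Fin n → Fin m → ℤ, a ∈ X ↔ ∀ i r, |a i r| ≤ H := by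
    intro a
    rw [hX, Fintype.mem_piFinset]
    simp only [Fintype.mem_piFinset, Finset.mem_Icc, abs_le]
  have hXc : (X.card : ℝ) ≤ 3 ^ (n * m) * (H : ℝ) ^ (n * m) := by
    rw [hX]
    simp only [Fintype.card_piFinset, Finset.prod_const, Finset.card_univ, Fintype.card_fin,
      Int.card_Icc]
    have h1 : ((H : ℤ) + 1 - -(H : ℤ)).toNat = 2 * H + 1 := by omega
    rw [h1, ← mul_pow, ← pow_mul, mul_comm m n]
    push_cast
    apply pow_le_pow_left₀ (by positivity)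
    linarith
  set N1 : Finset ℤ := (Finset.Icc (1 : ℤ) H).filter fun N => ∀ p ∈ T, ¬ (p : ℤ) ∣ N with hN1
  set NP : ℕ → Finset ℤ := fun p => (Finset.Icc (1 : ℤ) H).filter fun N =>
    (p : ℤ) ∣ N ∧ ¬ (p : ℤ) ^ 2 ∣ N with hNP
  -- the exceptional matrices
  have hSc : ∀ p ∈ T, ∀ N ∈ NP p,
      ((X.filter fun a => a ∈ B p N).card : ℝ) ≤ 4 ^ (n * m) * C' * (H : ℝ) ^ (n * m) / p := by
    intro p hp N hN
    rw [hNP, Finset.mem_filter] at hN
    have hpr := hTp p hp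
    have hp0 : (0 : ℝ) < p := by exact_mod_cast hpr.pos
    have h1 := hB p (hT1 p hp).1 (by have := (hT1 p hp).2; omega) N hN.2.1 hN.2.2
    have hfin := finite_Rs p n m (B p N)
    rw [Set.ncard_eq_toFinset_card _ hfin] at h1
    have h2 := card_res2 n m (p ^ 2) H (pow_pos hpr.pos 2) (hHT p hp)
      (X.filter fun a => a ∈ B p N) (fun a ha => (hXm a).mp (Finset.mem_filter.mp ha).1)
      hfin.toFinset (fun a ha => by
        rw [Set.Finite.mem_toFinset]
        have hpz : (0 : ℤ) < ((p ^ 2 : ℕ) : ℤ) := by exact_mod_cast pow_pos hpr.pos 2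
        refine ⟨fun i r => ⟨Int.emod_nonneg _ hpz.ne', ?_⟩, a, (Finset.mem_filter.mp ha).2,
          fun i r => ?_⟩
        · have := Int.emod_lt_of_pos (a i r) hpz
          push_cast at this ⊢
          exact this
        · show (p : ℤ) ^ 2 ∣ a i r % ((p ^ 2 : ℕ) : ℤ) - a i r
          rw [dvd_sub_comm]
          have h3 : ((p ^ 2 : ℕ) : ℤ) ∣ a i r - a i r % ((p ^ 2 : ℕ) : ℤ) := Int.dvd_self_sub_emod
          have h4 : ((p ^ 2 : ℕ) : ℤ) = (p : ℤ) ^ 2 := by push_cast; rfl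
          rw [h4] at h3 ⊢
          exact h3)
    refine h2.trans ?_
    have h3 : ((hfin.toFinset.card : ℕ) : ℝ) ≤ C' * (p : ℝ) ^ (2 * (n * m)) / p := by
      rw [le_div_iff₀ hp0]
      exact h1.trans (mul_le_mul_of_nonneg_right hCC (by positivity))
    refine (mul_le_mul_of_nonneg_right h3 (by positivity)).trans (le_of_eq ?_)
    push_cast
    rw [mul_pow, div_pow, ← pow_mul]
    field_simp
  -- the three kinds
  set M2 : ℕ → Finset ((Fin n → Fin m → ℤ) × ℤ) := fun p =>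
    X ×ˢ ((Finset.Icc (1 : ℤ) H).filter fun N => ((p ^ 2 : ℕ) : ℤ) ∣ N) with hM2
  set M3 : ℕ → Finset ((Fin n → Fin m → ℤ) × ℤ) := fun p =>
    (NP p).biUnion fun N => (X.filter fun a => a ∈ B p N).image fun a => (a, N) with hM3
  have hsub : A ⊆ (X ×ˢ N1) ∪ T.biUnion fun p => M2 p ∪ M3 p := by
    intro w hw
    obtain ⟨h1, h2, h3, h4⟩ := hA w hw
    have hwX : w.1 ∈ X := (hXm _).mpr h1
    have hwN : w.2 ∈ Finset.Icc (1 : ℤ) H := Finset.mem_Icc.mpr ⟨h2, h3⟩
    rw [Finset.mem_union]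
    by_cases hN : w.2 ∈ N1
    · left
      exact Finset.mem_product.mpr ⟨hwX, hN⟩
    · right
      rw [hN1, Finset.mem_filter] at hN
      push Not at hN
      obtain ⟨p, hp1, hp3⟩ := hN hwN
      rw [Finset.mem_biUnion]
      refine ⟨p, hp1, ?_⟩
      rw [Finset.mem_union]
      by_cases hsq : ((p : ℤ) ^ 2 ∣ w.2)
      · left
        refine Finset.mem_product.mpr ⟨hwX, Finset.mem_filter.mpr ⟨hwN, ?_⟩⟩
        push_cast
        exact hsq
      · right
        rw [hM3, Finset.mem_biUnion]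
        refine ⟨w.2, Finset.mem_filter.mpr ⟨hwN, hp3, hsq⟩, ?_⟩
        refine Finset.mem_image.mpr ⟨w.1, Finset.mem_filter.mpr ⟨hwX, ?_⟩, rfl⟩
        by_contra hcon
        exact h4 ⟨p, (hT1 p hp1).1, by have := (hT1 p hp1).2; omega, hp3, hsq, hcon⟩
  have hcard : (A.card : ℝ) ≤ X.card * N1.card + ∑ p ∈ T, ((M2 p).card + (M3 p).card : ℝ) := by
    have h1 : A.card ≤ X.card * N1.card + ∑ p ∈ T, ((M2 p).card + (M3 p).card) := by
      refine (Finset.card_le_card hsub).trans ((Finset.card_union_le _ _).trans ?_)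
      rw [Finset.card_product]
      refine Nat.add_le_add_left (Finset.card_biUnion_le.trans ?_) _
      exact Finset.sum_le_sum fun p _ => Finset.card_union_le _ _
    exact_mod_cast h1
  have hterm : ∀ p ∈ T, ((M2 p).card + (M3 p).card : ℝ) ≤
      K * (H : ℝ) ^ (n * m + 1) * ((p : ℝ) ^ 2)⁻¹ := by
    intro p hp
    have hpp := hTp p hp
    have hp0 : (0 : ℝ) < p := by exact_mod_cast hpp.pos
    have h3 := Pool.Agent.ZP3.H17.card_mult (p ^ 2) H (pow_pos hpp.pos 2)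
    have h4 := Pool.Agent.ZP3.H17.card_mult p H hpp.pos
    have e2 : ((M2 p).card : ℝ) ≤ 3 ^ (n * m) * (H : ℝ) ^ (n * m) * ((H : ℝ) / (p : ℝ) ^ 2) := by
      rw [hM2]
      simp only [Finset.card_product, Nat.cast_mul]
      push_cast at h3
      exact mul_le_mul hXc h3 (Nat.cast_nonneg _) (by positivity)
    have e3 : ((M3 p).card : ℝ) ≤
        4 ^ (n * m) * C' * (H : ℝ) ^ (n * m) / p * ((H : ℝ) / p) := by
      have h5 : ((M3 p).card : ℝ) ≤ ∑ N ∈ NP p, ((X.filter fun a => a ∈ B p N).card : ℝ) := by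
        have h6 : (M3 p).card ≤ ∑ N ∈ NP p, (X.filter fun a => a ∈ B p N).card := by
          rw [hM3]
          refine Finset.card_biUnion_le.trans ?_
          exact Finset.sum_le_sum fun N _ => Finset.card_image_le
        exact_mod_cast h6
      have h7 : ((NP p).card : ℝ) ≤ (H : ℝ) / p := by
        refine le_trans ?_ h4
        have : NP p ⊆ (Finset.Icc (1 : ℤ) H).filter fun N => (p : ℤ) ∣ N := by
          intro N hN
          rw [hNP, Finset.mem_filter] at hN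
          exact Finset.mem_filter.mpr ⟨hN.1, hN.2.1⟩
        exact_mod_cast Finset.card_le_card this
      calc ((M3 p).card : ℝ) ≤ ∑ N ∈ NP p, ((X.filter fun a => a ∈ B p N).card : ℝ) := h5
        _ ≤ ∑ _N ∈ NP p, 4 ^ (n * m) * C' * (H : ℝ) ^ (n * m) / p :=
            Finset.sum_le_sum fun N hN => hSc p hp N hN
        _ = (NP p).card * (4 ^ (n * m) * C' * (H : ℝ) ^ (n * m) / p) := by
            rw [Finset.sum_const, nsmul_eq_mul]
        _ ≤ (H : ℝ) / p * (4 ^ (n * m) * C' * (H : ℝ) ^ (n * m) / p) :=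
            mul_le_mul_of_nonneg_right h7 (by positivity)
        _ = _ := by ring
    refine (add_le_add e2 e3).trans (le_of_eq ?_)
    have hpw : (H : ℝ) ^ (n * m + 1) = (H : ℝ) ^ (n * m) * H := pow_succ _ _
    rw [hK, hpw]
    field_simp
  have hsum : ∑ p ∈ T, ((M2 p).card + (M3 p).card : ℝ) ≤ ε / 2 * (H : ℝ) ^ (n * m + 1) := by
    have hTI : T ⊆ Finset.Ioo p₁ (H + 1) := by
      intro p hp
      rw [Finset.mem_Ioo]
      have h1 := (hT1 p hp).2
      have h2 := hHT p hp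
      have h3 : p ≤ p ^ 2 := Nat.le_self_pow (by norm_num) p
      omega
    have h1 : ∑ p ∈ T, ((M2 p).card + (M3 p).card : ℝ) ≤
        K * (H : ℝ) ^ (n * m + 1) * ∑ p ∈ Finset.Ioo p₁ (H + 1), ((p : ℝ) ^ 2)⁻¹ := by
      rw [Finset.mul_sum]
      refine (Finset.sum_le_sum hterm).trans ?_
      refine Finset.sum_le_sum_of_subset_of_nonneg hTI fun p _ _ => ?_
      positivity
    have h2 := sum_Ioo_inv_sq_le (α := ℝ) p₁ (H + 1)
    have h3 : (0 : ℝ) ≤ (H : ℝ) ^ (n * m + 1) := by positivity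
    calc ∑ p ∈ T, ((M2 p).card + (M3 p).card : ℝ)
        ≤ K * (H : ℝ) ^ (n * m + 1) * ∑ p ∈ Finset.Ioo p₁ (H + 1), ((p : ℝ) ^ 2)⁻¹ := h1
      _ ≤ K * (H : ℝ) ^ (n * m + 1) * (2 / ((p₁ : ℝ) + 1)) :=
          mul_le_mul_of_nonneg_left h2 (by positivity)
      _ = K * (2 / ((p₁ : ℝ) + 1)) * (H : ℝ) ^ (n * m + 1) := by ring
      _ ≤ ε / 2 * (H : ℝ) ^ (n * m + 1) := mul_le_mul_of_nonneg_right hp₁K' h3
  have hfirst : (X.card : ℝ) * N1.card ≤ ε / 2 * (H : ℝ) ^ (n * m + 1) := by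
    calc (X.card : ℝ) * N1.card ≤ (3 ^ (n * m) * (H : ℝ) ^ (n * m)) * (δ * (H : ℝ)) :=
          mul_le_mul hXc hN1c (Nat.cast_nonneg _) (by positivity)
      _ = ε / 2 * (H : ℝ) ^ (n * m + 1) := by
          rw [pow_succ, hδ]
          field_simp
  linarith

end Pool.Agent.ZPK.H25
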