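import Pool.Agent.ZPK.StmtsX
import Pool.Agent.Helper77_ZP3.LP2

/-!
Squad ZPK (MP_6e1a06_nt), row XNF: the normal form.
-/

set_option autoImplicit false

namespace Pool.Agent.ZPK.H25

open Polynomial Pool.Agent.ZPT Pool.Agent.ZP3 Pool.Agent.ZP3.H77

noncomputable section

section ultra

variable {K : Type} [NormedField K] [IsUltrametricDist K]

theorem summ [CompleteSpace K] {c : ℕ → K} (hc : ∀ n, ‖c n‖ ≤ 1) {t : K} (ht : ‖t‖ < 1) :
    Summable fun n : ℕ => c n * t ^ n := by
  refine Summable.of_norm_bounded (g := fun n => ‖t‖ ^ n)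
    (summable_geometric_of_lt_one (norm_nonneg _) ht) fun n => ?_
  rw [norm_mul, norm_pow]
  exact mul_le_of_le_one_left (by positivity) (hc n)

theorem tailm [CompleteSpace K] {c : ℕ → K} (hc : ∀ n, ‖c n‖ ≤ 1) {t : K} (ht : ‖t‖ < 1) {m : ℕ}
    (hm : 1 ≤ m) (h0 : ∀ j, 1 ≤ j → j < m → c j = 0) :
    ‖(∑' n : ℕ, c n * t ^ n) - (c 0 + c m * t ^ m)‖ ≤ ‖t‖ ^ (m + 1) := by
  have hs := summ hc ht
  rw [← hs.sum_add_tsum_nat_add (m + 1), Finset.sum_range_succ]
  have h1 : ∑ i ∈ Finset.range m, c i * t ^ i = c 0 := by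
    rw [Finset.sum_eq_single_of_mem 0 (Finset.mem_range.2 (by omega))]
    · rw [pow_zero, mul_one]
    · intro j hj hj0
      rw [h0 j (by omega) (Finset.mem_range.1 hj), zero_mul]
  rw [h1, add_sub_cancel_left]
  refine IsUltrametricDist.norm_tsum_le_of_forall_le_of_nonneg (by positivity) fun n => ?_
  rw [norm_mul, norm_pow, pow_add]
  calc ‖c (n + (m + 1))‖ * (‖t‖ ^ n * ‖t‖ ^ (m + 1)) ≤ 1 * (1 * ‖t‖ ^ (m + 1)) := by
        gcongr
        · exact hc _
        · exact pow_le_one₀ (norm_nonneg _) ht.le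
    _ = ‖t‖ ^ (m + 1) := by ring

theorem powlin {a b : K} {r s : ℝ} (hr : r ≤ 1) (hr0 : 0 ≤ r) (hs : s ≤ 1) (hs0 : 0 ≤ s)
    (hsr : s * s ≤ r) (hb : ‖b‖ ≤ s) (hab : ‖a - b‖ ≤ r) (n : ℕ) :
    ‖(1 + a) ^ n - (1 + (n : K) * b)‖ ≤ r := by
  have ha1 : ‖a‖ ≤ 1 := by
    have e1 : a = (a - b) + b := by ring
    rw [e1]
    exact add_le' (hab.trans hr) (hb.trans hs)
  have h1a : ‖1 + a‖ ≤ 1 := add_le' (by rw [norm_one]) ha1
  have hba : ‖b * a‖ ≤ r := by
    have e1 : b * a = b * (a - b) + b * b := by ring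
    rw [e1]
    refine add_le' ?_ ?_
    · rw [norm_mul]
      calc ‖b‖ * ‖a - b‖ ≤ 1 * r := by
            gcongr
            exact hb.trans hs
        _ = r := one_mul r
    · rw [norm_mul]
      exact (mul_le_mul hb hb (norm_nonneg _) hs0).trans hsr
  induction n with
  | zero =>
    simp [hr0]
  | succ n ih =>
    have e1 : (1 + a) ^ (n + 1) - (1 + ((n + 1 : ℕ) : K) * b) =
        ((1 + a) ^ n - (1 + (n : K) * b)) * (1 + a) + ((a - b) + (n : K) * (b * a)) := by
      push_cast
      ring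
    rw [e1]
    refine add_le' ?_ (add_le' hab ?_)
    · rw [norm_mul]
      calc ‖(1 + a) ^ n - (1 + (n : K) * b)‖ * ‖1 + a‖ ≤ r * 1 := by gcongr
        _ = r := mul_one r
    · rw [norm_mul]
      calc ‖(n : K)‖ * ‖b * a‖ ≤ 1 * r := by
            gcongr
            exact IsUltrametricDist.norm_natCast_le_one K _
        _ = r := one_mul r

end ultra

theorem norm_nat_one {p : ℕ} (hp : p.Prime) {K : Type} [NormedField K] [CharZero K]
    (hext : Ext p K) {n : ℕ} (h1 : 1 ≤ n) (h2 : n < p) : ‖(n : K)‖ = 1 := by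
  have h := hext (n : ℚ)
  rw [Rat.cast_natCast] at h
  rw [h]
  have : Fact p.Prime := ⟨hp⟩
  have h3 : ¬ p ∣ n := fun hd => by
    have := Nat.le_of_dvd (by omega) hd
    omega
  have h4 : padicNorm p (n : ℚ) = 1 := by
    rw [padicNorm.nat_eq_one_iff]
    exact h3
  rw [h4]
  norm_num

theorem xnf (hTAT : TATStmt) (hMTH : MTHStmt) (hURT : URTStmt) (hURR : URRStmt) : XnfStmt := by
  intro U hU p hp hp5 K _ _ _ _ _ hext L hL e e' A g hcd he hep he'p
  obtain ⟨r1, r2, r3, r4, r5⟩ := hURR p hp K hext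
  obtain ⟨u1, hq⟩ := hTAT U hU p hp hp5 K hext
  have hpn := norm_p hp hext
  have pR : (1 : ℝ) < p := by exact_mod_cast hp.one_lt
  have p0 : (0 : ℝ) < p := by linarith
  have pK : (p : K) ≠ 0 := by exact_mod_cast hp.pos.ne'
  set u := ((PowerSeries.coeff 1 U : ℚ) : K) with hudef
  have urL : ∀ x ∈ L, ‖x‖ ≤ 1 → Ur p x := by
    obtain ⟨F, hF, h⟩ := hL
    exact fun x hx h1 => ⟨h1, F, hF, h x hx h1⟩
  have powU : ∀ (a : K) (n : ℕ), Ur p a → Ur p (a ^ n) := fun a n ha => by
    induction n with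
    | zero => rw [pow_zero]; exact_mod_cast r3 1
    | succ n ih => rw [pow_succ]; exact (r1 _ _ ih ha).2.1
  have gne : g ≠ 0 := norm_pos_iff.1 (by rw [hcd.g1]; exact one_pos)
  rcases le_or_gt e' e with hee | hee
  · -- `e' ≤ e`
    refine ⟨1, ⟨by exact_mod_cast r3 1, norm_one⟩, ?_⟩
    intro m t w q hm hme hvan ht hw P
    have t0 : 0 < ‖t‖ := by
      by_contra hcon
      have h0 : ‖t‖ = 0 := le_antisymm (not_lt.1 hcon) (norm_nonneg _)
      rw [h0, zero_pow (by omega)] at ht
      have := inv_pos.2 p0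
      linarith
    have t1 : ‖t‖ < 1 := by
      by_contra hcon
      have h1 : 1 ≤ ‖t‖ ^ e := one_le_pow₀ (not_lt.1 hcon)
      rw [ht] at h1
      have := inv_lt_one_of_one_lt₀ pR
      linarith
    have tne : t ≠ 0 := norm_pos_iff.1 t0
    have wn : ‖w‖ = 1 := by
      rw [hw, norm_div, norm_pow, ht, hpn]
      exact div_self (inv_ne_zero p0.ne')
    have qne : q ≠ 0 := norm_pos_iff.1 P.q0
    obtain ⟨n1, m1⟩ := hq q P.q0 P.q1
    set S := ∑' n : ℕ, A n * t ^ n with hSdef
    have hX := P.eq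
    -- the power series `S * t ^ (e - e')`
    have hMn : ∀ j, ‖Mu e e' A j‖ ≤ 1 := by
      intro j
      unfold Mu
      split_ifs
      · exact hcd.An1 _
      · rw [norm_zero]; exact zero_le_one
      · exact hcd.An1 _
      · omega
    have hser : S * t ^ (e - e') = ∑' n : ℕ, Mu e e' A n * t ^ n := by
      rcases Nat.lt_or_ge e' e with h1 | h1
      · have hs := summ hMn t1
        rw [← hs.sum_add_tsum_nat_add (e - e')]
        have h2 : ∑ i ∈ Finset.range (e - e'), Mu e e' A i * t ^ i = 0 := by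
          refine Finset.sum_eq_zero fun i hi => ?_
          rw [Finset.mem_range] at hi
          unfold Mu
          rw [if_pos h1, if_neg (by omega), zero_mul]
        rw [h2, zero_add, hSdef, ← tsum_mul_right]
        refine tsum_congr fun n => ?_
        unfold Mu
        rw [if_pos h1, if_pos (by omega), Nat.add_sub_cancel, pow_add]
        ring
      · have h2 : e' = e := le_antisymm hee h1
        rw [h2, Nat.sub_self, pow_zero, mul_one, hSdef]
        refine tsum_congr fun n => ?_
        unfold Mu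
        rw [if_neg (lt_irrefl e), if_pos rfl]
    have hB : Bf e e' A = Mu e e' A 0 := by
      unfold Bf Mu
      rcases Nat.lt_or_ge e' e with h1 | h1
      · rw [if_pos h1, if_pos h1, if_neg (by omega)]
      · have h2 : e' = e := le_antisymm hee h1
        rw [h2, if_neg (lt_irrefl e), if_pos rfl, if_neg (lt_irrefl e), if_pos rfl]
    have hG : Gf e e' g = g := by unfold Gf; rw [if_pos hee]
    have hSg : (Sg e e' : K) = 1 := by unfold Sg; rw [if_pos hee]
    have hNu : Nu e e' A g m = 0 := by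
      unfold Nu
      rw [if_neg (fun h => absurd h.1 (by omega))]
    have hrx : rx e e' = 1 := by unfold rx; rw [if_pos hee]
    have hsx : sx e e' = 1 := by unfold sx; rw [if_pos hee]
    have hpow : t ^ e = t ^ e' * t ^ (e - e') := by rw [← pow_add]; congr 1; omega
    have hid : ∀ Y : K, (p : K) / q - (g + Bf e e' A * w + Y * w - p * u) =
        p * (q⁻¹ - (jv U q - u)) + w * (S * t ^ (e - e') - (Bf e e' A + Y)) := by
      intro Y
      have h1 : (p : K) * (S / t ^ e') = w * (S * t ^ (e - e')) := by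
        rw [hw, hpow]
        have := pow_ne_zero e' tne
        have := pow_ne_zero (e - e') tne
        field_simp
      have h2 : (p : K) * (g / p) = g := by field_simp
      rw [hX]
      calc (p : K) / q - (g + Bf e e' A * w + Y * w - p * u) =
          p * q⁻¹ - (g + Bf e e' A * w + Y * w - p * u) := by rw [div_eq_mul_inv]
        _ = p * (q⁻¹ - (S / t ^ e' + g / p - u)) + (p * (S / t ^ e') + p * (g / p)) -
              (g + Bf e e' A * w + Y * w) := by ring
        _ = p * (q⁻¹ - (S / t ^ e' + g / p - u)) + (w * (S * t ^ (e - e')) + g) -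
              (g + Bf e e' A * w + Y * w) := by rw [h1, h2]
        _ = _ := by ring
    have hpt : (p : ℝ)⁻¹ ≤ ‖t‖ := by
      rw [← ht]
      calc ‖t‖ ^ e ≤ ‖t‖ ^ 1 := pow_le_pow_of_le_one t0.le t1.le he
        _ = ‖t‖ := pow_one _
    have hcrude : ‖(p : K) / q - (g + Bf e e' A * w)‖ ≤ ‖t‖ := by
      have h1 := hid 0
      have h2 : (p : K) / q - (g + Bf e e' A * w) =
          ((p : K) / q - (g + Bf e e' A * w + 0 * w - p * u)) - p * u := by ring
      rw [h2, h1, add_zero]
      refine sub_le' (add_le' ?_ ?_) ?_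
      · rw [norm_mul, hpn]
        refine le_trans ?_ hpt
        exact mul_le_of_le_one_right (inv_nonneg.2 p0.le) (m1.trans P.q1.le)
      · rw [norm_mul, wn, one_mul, hser, hB]
        exact tail hMn t1
      · rw [norm_mul, hpn]
        refine le_trans ?_ hpt
        exact mul_le_of_le_one_right (inv_nonneg.2 p0.le) u1
    refine ⟨(p : K) / q, ?_, ?_, ?_⟩
    · rw [hrx, hsx, pow_one, pow_one]
      field_simp
    · rw [hG]
      exact hcrude
    · intro h1
      rw [hG] at h1 ⊢
      rw [hNu, hSg, one_mul, add_zero]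
      have hNn : ‖(p : K) / q‖ = 1 := by
        rw [← h1]
        exact norm_eq' (by rw [h1]; exact hcrude.trans_lt t1)
      have hqn : ‖q‖ = (p : ℝ)⁻¹ := by
        rw [norm_div, hpn] at hNn
        rw [div_eq_one_iff_eq P.q0.ne'] at hNn
        exact hNn.symm
      have h2 := hid (t ^ m * Mu e e' A m)
      have h3 : t ^ m * (Mu e e' A m * w) = t ^ m * Mu e e' A m * w := by ring
      rw [h3, h2]
      refine add_le' ?_ ?_
      · rw [norm_mul, hpn]
        calc (p : ℝ)⁻¹ * ‖q⁻¹ - (jv U q - u)‖ ≤ (p : ℝ)⁻¹ * (p : ℝ)⁻¹ := by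
              gcongr
              rw [← hqn]
              exact m1
          _ = ‖t‖ ^ (e + e) := by rw [← ht, pow_add]
          _ ≤ ‖t‖ ^ (m + 1) := pow_le_pow_of_le_one t0.le t1.le (by omega)
      · rw [norm_mul, wn, one_mul, hser, hB, mul_comm (t ^ m)]
        exact tailm hMn t1 hm fun j hj1 hj2 => (hvan j hj1 hj2).1
  · -- `e' > e`
    have hα1 : ‖A 0‖ = 1 := hcd.A0 (by omega)
    have hαU : Ur p (A 0) := urL _ (hcd.An 0) hα1.le
    have αne : A 0 ≠ 0 := norm_pos_iff.1 (by rw [hα1]; exact one_pos)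
    obtain ⟨κ, hκ⟩ := IsAlgClosed.exists_pow_nat_eq ((A 0) ^ e) (by omega : 0 < e')
    have hκn : ‖κ‖ = 1 := by
      have h1 := congrArg norm hκ
      rw [norm_pow, norm_pow, hα1, one_pow] at h1
      exact (pow_eq_one_iff_of_nonneg (norm_nonneg _) (by omega)).1 h1
    have hpe' : ¬ p ∣ e' := fun hd => by
      have := Nat.le_of_dvd (by omega) hd
      omega
    have hκU : Uu p κ := by
      refine (hURT p hp K hext).2 κ e' (by omega) hpe' hκn ?_
      rw [hκ]
      exact powU _ e hαU
    refine ⟨κ, hκU, ?_⟩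
    intro m t w q hm hme hvan ht hw P
    have t0 : 0 < ‖t‖ := by
      by_contra hcon
      have h0 : ‖t‖ = 0 := le_antisymm (not_lt.1 hcon) (norm_nonneg _)
      rw [h0, zero_pow (by omega)] at ht
      have := inv_pos.2 p0
      linarith
    have t1 : ‖t‖ < 1 := by
      by_contra hcon
      have h1 : 1 ≤ ‖t‖ ^ e := one_le_pow₀ (not_lt.1 hcon)
      rw [ht] at h1
      have := inv_lt_one_of_one_lt₀ pR
      linarith
    have tne : t ≠ 0 := norm_pos_iff.1 t0
    have wn : ‖w‖ = 1 := by
      rw [hw, norm_div, norm_pow, ht, hpn]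
      exact div_self (inv_ne_zero p0.ne')
    have wne : w ≠ 0 := norm_pos_iff.1 (by rw [wn]; exact one_pos)
    have qne : q ≠ 0 := norm_pos_iff.1 P.q0
    have en : ‖(e : K)‖ = 1 := norm_nat_one hp hext he hep
    have en' : ‖(e' : K)‖ = 1 := norm_nat_one hp hext (by omega) he'p
    have ene : (e : K) ≠ 0 := norm_pos_iff.1 (by rw [en]; exact one_pos)
    have ene' : (e' : K) ≠ 0 := norm_pos_iff.1 (by rw [en']; exact one_pos)
    obtain ⟨n1, m1⟩ := hq q P.q0 P.q1
    have hX := P.eq
    -- the vanishing of the coefficients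
    have hA0 : ∀ j, 1 ≤ j → j < m → A j = 0 := by
      intro j hj1 hj2
      have h1 := (hvan j hj1 hj2).1
      unfold Mu at h1
      rw [if_neg (by omega), if_neg (by omega)] at h1
      rcases div_eq_zero_iff.1 h1 with h2 | h2
      · rcases mul_eq_zero.1 h2 with h3 | h3
        · exact absurd h3 (div_ne_zero ene ene')
        · exact h3
      · exact absurd h2 αne
    have hem : m ≤ e' - e := by
      by_contra hcon
      have h1 := (hvan (e' - e) (by omega) (by omega)).2
      unfold Nu at h1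
      rw [if_pos ⟨hee, rfl⟩] at h1
      rcases div_eq_zero_iff.1 h1 with h2 | h2
      · rcases mul_eq_zero.1 h2 with h3 | h3
        · exact absurd h3 (div_ne_zero ene ene')
        · exact absurd h3 gne
      · exact absurd h2 αne
    set S := ∑' n : ℕ, A n * t ^ n with hSdef
    have hSt : ‖S - (A 0 + A m * t ^ m)‖ ≤ ‖t‖ ^ (m + 1) := tailm hcd.An1 t1 hm hA0
    have hS1 : ‖S - A 0‖ ≤ ‖t‖ := tail hcd.An1 t1
    have hSn : ‖S‖ = 1 := by
      rw [← hα1]
      exact norm_eq' (by rw [hα1]; exact hS1.trans_lt t1)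
    -- the norm of `q`
    have hlt : ‖t‖ ^ e' < ‖t‖ ^ e := pow_lt_pow_right_of_lt_one₀ t0 t1 hee
    have hXn : ‖jv U q‖ = (‖t‖ ^ e')⁻¹ := by
      have h1 : ‖S / t ^ e'‖ = (‖t‖ ^ e')⁻¹ := by
        rw [norm_div, hSn, norm_pow, one_div]
      rw [← h1]
      refine norm_eq' ?_
      rw [hX, add_sub_cancel_left, h1, norm_div, hcd.g1, hpn, ← ht, one_div]
      exact inv_strictAnti₀ (by positivity) hlt
    have hqn : ‖q‖ = ‖t‖ ^ e' := by
      rw [n1] at hXn
      exact inv_injective hXn
    -- the quotient `Z = t ^ e' / (q A₀)`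
    set x : K := A m / A 0 * t ^ m + (if e' - e = m then g / A 0 * t ^ m / w else 0) with hx
    set Z : K := t ^ e' / (q * A 0) with hZ
    have hgw : g / p * t ^ e' = g * t ^ (e' - e) / w := by
      have h1 : t ^ e' = t ^ e * t ^ (e' - e) := by rw [← pow_add]; congr 1; omega
      have h2 : (p : K) = w * t ^ e := by rw [hw]; field_simp
      rw [h1, h2]
      have := pow_ne_zero e tne
      field_simp
    have hZx : ‖(Z - 1) - x‖ ≤ ‖t‖ ^ (m + 1) := by
      have h1 : Z - 1 - x = (t ^ e' * (q⁻¹ - (jv U q - u)) + (S - (A 0 + A m * t ^ m)) -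
          t ^ e' * u + (g * t ^ (e' - e) / w - (if e' - e = m then g * t ^ m / w else 0))) / A 0 := by
        have h2 : (if e' - e = m then g / A 0 * t ^ m / w else 0) =
            (if e' - e = m then g * t ^ m / w else 0) / A 0 := by
          split_ifs
          · ring
          · rw [zero_div]
        rw [hx, h2, hZ, hX, ← hgw]
        have := pow_ne_zero e' tne
        field_simp
        ring
      rw [h1, norm_div, hα1, div_one]
      have hem' : ‖t‖ ^ e' ≤ ‖t‖ ^ (m + 1) := pow_le_pow_of_le_one t0.le t1.le (by omega)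
      refine add_le' (sub_le' (add_le' ?_ hSt) ?_) ?_
      · rw [norm_mul, norm_pow]
        refine le_trans ?_ hem'
        exact mul_le_of_le_one_right (by positivity) (m1.trans P.q1.le)
      · rw [norm_mul, norm_pow]
        refine le_trans ?_ hem'
        exact mul_le_of_le_one_right (by positivity) u1
      · split_ifs with h3
        · rw [h3, sub_self, norm_zero]
          positivity
        · rw [sub_zero, norm_div, norm_mul, hcd.g1, wn, norm_pow, one_mul, div_one]
          exact pow_le_pow_of_le_one t0.le t1.le (by omega)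
    have hxn : ‖x‖ ≤ ‖t‖ ^ m := by
      rw [hx]
      refine add_le' ?_ ?_
      · rw [norm_mul, norm_div, hα1, div_one, norm_pow]
        exact mul_le_of_le_one_left (by positivity) (hcd.An1 m)
      · split_ifs
        · rw [norm_div, norm_mul, norm_div, hα1, hcd.g1, wn, norm_pow]
          simp
        · rw [norm_zero]
          positivity
    have hr1 : ‖t‖ ^ (m + 1) < 1 := pow_lt_one₀ t0.le t1 (by omega)
    have hs1 : ‖t‖ ^ m ≤ 1 := pow_le_one₀ t0.le t1.le
    have hsr : ‖t‖ ^ m * ‖t‖ ^ m ≤ ‖t‖ ^ (m + 1) := by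
      rw [← pow_add]
      exact pow_le_pow_of_le_one t0.le t1.le (by omega)
    have hZe : ‖Z ^ e - (1 + (e : K) * x)‖ ≤ ‖t‖ ^ (m + 1) := by
      have h1 := powlin hr1.le (by positivity) hs1 (by positivity) hsr hxn hZx e
      rw [show (1 : K) + (Z - 1) = Z by ring] at h1
      exact h1
    have hxn' : ‖(e : K) / (e' : K) * x‖ ≤ ‖t‖ ^ m := by
      rw [norm_mul, norm_div, en, en', div_one, one_mul]
      exact hxn
    have hYe : ‖(1 + (e : K) / (e' : K) * x) ^ e' - (1 + (e : K) * x)‖ ≤ ‖t‖ ^ (m + 1) := by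
      have h1 := powlin hr1.le (by positivity) hs1 (by positivity) hsr hxn'
        (a := (e : K) / (e' : K) * x) (by rw [sub_self, norm_zero]; positivity) e'
      have h2 : (e' : K) * ((e : K) / (e' : K) * x) = (e : K) * x := by field_simp
      rw [h2] at h1
      exact h1
    set y : K := w * (1 + (e : K) / (e' : K) * x) with hy
    have hyn : ‖y‖ = 1 := by
      rw [hy, norm_mul, wn, one_mul]
      rw [← norm_one (α := K)]
      refine norm_eq' ?_
      rw [add_sub_cancel_left, norm_one]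
      refine hxn'.trans_lt ?_
      exact pow_lt_one₀ t0.le t1 (by omega)
    have yne : y ≠ 0 := norm_pos_iff.1 (by rw [hyn]; exact one_pos)
    set T : K := w ^ e' * Z ^ e with hT
    have hTy : ‖T - y ^ e'‖ ≤ ‖t‖ ^ (m + 1) * ‖y ^ e'‖ := by
      have h1 : T - y ^ e' = w ^ e' * ((Z ^ e - (1 + (e : K) * x)) -
          ((1 + (e : K) / (e' : K) * x) ^ e' - (1 + (e : K) * x))) := by
        rw [hT, hy, mul_pow]
        ring
      rw [h1, norm_mul, norm_pow, wn, one_pow, one_mul, norm_pow, hyn, one_pow, mul_one]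
      exact sub_le' hZe hYe
    obtain ⟨N, hN1, hN2⟩ := hMTH p hp K hext e' T y (‖t‖ ^ (m + 1)) (by omega) hpe' yne hr1 hTy
    rw [hyn, mul_one] at hN2
    have hyid : y = w + t ^ m * (Mu e e' A m * w + Nu e e' A g m) := by
      have hMu : Mu e e' A m = (e : K) / (e' : K) * A m / A 0 := by
        unfold Mu
        rw [if_neg (by omega), if_neg (by omega)]
      rw [hMu]
      unfold Nu
      by_cases h3 : e' - e = m
      · rw [if_pos ⟨hee, h3⟩, hy, hx, if_pos h3]
        field_simp
      · rw [if_neg (fun h => h3 h.2), hy, hx, if_neg h3]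
        field_simp
        ring
    have hG : Gf e e' g = 0 := by unfold Gf; rw [if_neg (by omega)]
    have hB : Bf e e' A = 1 := by unfold Bf; rw [if_neg (by omega), if_neg (by omega)]
    have hSg : (Sg e e' : K) = 0 := by unfold Sg; rw [if_neg (by omega)]
    have hrx : rx e e' = e' := by unfold rx; rw [if_neg (by omega)]
    have hsx : sx e e' = e := by unfold sx; rw [if_neg (by omega)]
    refine ⟨N, ?_, ?_, ?_⟩
    · rw [hrx, hsx, div_pow, mul_pow, hN1, hκ, hT, hZ, hw]
      have h1 := pow_ne_zero e' tne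
      have h2 := pow_ne_zero e tne
      have h3 := pow_ne_zero e qne
      have h4 := pow_ne_zero e αne
      have h5 := pow_ne_zero e' pK
      rw [div_pow, div_pow, mul_pow, ← pow_mul, ← pow_mul, mul_comm e' e]
      have h6 := pow_ne_zero (e * e') tne
      field_simp
    · rw [hG, hB, zero_add, one_mul]
      have h1 : N - w = (N - y) + w * ((e : K) / (e' : K) * x) := by rw [hy]; ring
      rw [h1]
      refine add_le' (hN2.trans ?_) ?_
      · calc ‖t‖ ^ (m + 1) ≤ ‖t‖ ^ 1 := pow_le_pow_of_le_one t0.le t1.le (by omega)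
          _ = ‖t‖ := pow_one _
      · rw [norm_mul, wn, one_mul]
        refine hxn'.trans ?_
        calc ‖t‖ ^ m ≤ ‖t‖ ^ 1 := pow_le_pow_of_le_one t0.le t1.le (by omega)
          _ = ‖t‖ := pow_one _
    · intro _
      rw [hG, hB, hSg, zero_add, one_mul, zero_mul, zero_mul, sub_zero, ← hyid]
      exact hN2

end

end Pool.Agent.ZPK.H25
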